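import Mathlib
import Pool.Agent.Lib.helper25.BilAlg

set_option autoImplicit false

namespace Pool.Agent.Results.MP_c4a975_al.CharTwo

section Defs
variable {R : Type} [NonUnitalNonAssocRing R]

/-- `J` is a two-sided ideal of the ring `T` (a subring of `R` given by its additive group) -/
def IsIdealOf (J T : AddSubgroup R) : Prop := J ≤ T ∧ ∀ a ∈ J, ∀ b ∈ T, a * b ∈ J ∧ b * a ∈ J

/-- `I` is a minimal ideal of `R` -/
def IsMinimalIdeal (I : AddSubgroup R) : Prop :=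
  IsIdealOf I ⊤ ∧ I ≠ ⊥ ∧ ∀ J : AddSubgroup R, IsIdealOf J ⊤ → J ≤ I → J = ⊥ ∨ J = I

/-- the additive subgroup spanned by all products `ab`, `a ∈ A`, `b ∈ B` -/
def prod (A B : AddSubgroup R) : AddSubgroup R :=
  AddSubgroup.closure {z : R | ∃ a ∈ A, ∃ b ∈ B, z = a * b}

/-- `I` is simple as a ring -/
def IsSimpleRing (I : AddSubgroup R) : Prop :=
  prod I I ≠ ⊥ ∧ ∀ J : AddSubgroup R, IsIdealOf J I → J = ⊥ ∨ J = I

/-- derived series -/
def derived (I : AddSubgroup R) : ℕ → AddSubgroup R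
  | 0 => I
  | k + 1 => prod (derived I k) (derived I k)

/-- right powers: `rightPow I n` is `I^⟨n+1⟩` -/
def rightPow (I : AddSubgroup R) : ℕ → AddSubgroup R
  | 0 => I
  | k + 1 => prod (rightPow I k) I

end Defs

open Pool.Agent.Lib.H25BilAlg

/-- coordinates `(b, 1, x)`: `(β, p + q x)(β', p' + q' x) = (0, (p + q x)(p' + q' x) + β' q)` -/
def mm : (Fin 3 → ZMod 2) →ₗ[ZMod 2] (Fin 3 → ZMod 2) →ₗ[ZMod 2] (Fin 3 → ZMod 2) :=
  LinearMap.mk₂ (ZMod 2) (fun x y => ![0, x 1 * y 1 + x 2 * y 0, x 1 * y 2 + x 2 * y 1])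
    (fun a b c => by ext i; fin_cases i <;> simp <;> ring)
    (fun r a b => by ext i; fin_cases i <;> simp <;> ring)
    (fun a b c => by ext i; fin_cases i <;> simp <;> ring)
    (fun r a b => by ext i; fin_cases i <;> simp <;> ring)

def mk3 (a b c : ZMod 2) : Alg mm := ![a, b, c]

lemma mul_eq (x y : Alg mm) :
    x * y = mk3 0 (x 1 * y 1 + x 2 * y 0) (x 1 * y 2 + x 2 * y 1) := rfl

lemma eq_mk3 (x : Alg mm) : x = mk3 (x 0) (x 1) (x 2) := by
  funext i; fin_cases i <;> rfl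

lemma mk3_mul (a b c d e f : ZMod 2) :
    mk3 a b c * mk3 d e f = mk3 0 (b * e + c * d) (b * f + c * e) := rfl

lemma mk3_add (a b c d e f : ZMod 2) :
    mk3 a b c + mk3 d e f = mk3 (a + d) (b + e) (c + f) := by
  funext i; fin_cases i <;> rfl

lemma mk3_zero : mk3 0 0 0 = 0 := by
  funext i; fin_cases i <;> rfl

def I0 : AddSubgroup (Alg mm) where
  carrier := {x | x 0 = 0}
  add_mem' := by
    intro a b ha hb
    show a 0 + b 0 = 0
    rw [show a 0 = 0 from ha, show b 0 = 0 from hb, add_zero]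
  zero_mem' := rfl
  neg_mem' := by
    intro a ha
    show -(a 0) = 0
    rw [show a 0 = 0 from ha, neg_zero]

def J0 : AddSubgroup (Alg mm) where
  carrier := {x | x 0 = 0 ∧ x 1 = 0}
  add_mem' := by
    intro a b ha hb
    show a 0 + b 0 = 0 ∧ a 1 + b 1 = 0
    rw [ha.1, hb.1, ha.2, hb.2, add_zero]; exact ⟨rfl, rfl⟩
  zero_mem' := ⟨rfl, rfl⟩
  neg_mem' := by
    intro a ha
    show -(a 0) = 0 ∧ -(a 1) = 0
    rw [ha.1, ha.2, neg_zero]; exact ⟨rfl, rfl⟩

lemma one_ne : mk3 0 1 0 ≠ 0 := by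
  intro h
  have : (1 : ZMod 2) = 0 := congrFun h 1
  exact one_ne_zero this

lemma one_sq : mk3 0 1 0 = mk3 0 1 0 * mk3 0 1 0 := by
  rw [mk3_mul]; simp

lemma zmod2 (a : ZMod 2) : a = 0 ∨ a = 1 := by
  revert a; decide

theorem result : ∃ (R : Type) (_ : NonUnitalNonAssocRing R),
    (∀ x y : R, (x * y) * y = x * (y * y)) ∧
    ∃ I : AddSubgroup R, IsMinimalIdeal I ∧ ¬ IsSimpleRing I ∧
      (∀ k, derived I k ≠ ⊥) ∧ (∀ k, rightPow I k ≠ ⊥) := by
  have h2 : (2 : ZMod 2) = 0 := rfl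
  refine ⟨Alg mm, inferInstance, ?_, I0, ⟨⟨le_top, fun a _ b _ => ⟨rfl, rfl⟩⟩, ?_, ?_⟩, ?_, ?_, ?_⟩
  · intro x y
    rw [eq_mk3 x, eq_mk3 y]
    simp only [mk3_mul]
    congr 1
    · linear_combination (x 2 * y 0 * y 1 - x 1 * y 2 * y 0 + x 1 * y 2 * y 0) * h2
    · ring
  · intro h
    have : mk3 0 1 0 ∈ I0 := rfl
    rw [h] at this
    exact one_ne this
  · intro J hJ hle
    by_cases h0 : J = ⊥
    · exact Or.inl h0
    right
    obtain ⟨⟨v, hv⟩, hv0⟩ := (AddSubgroup.ne_bot_iff_exists_ne_zero).1 h0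
    have hv0' : v ≠ 0 := fun h => hv0 (Subtype.ext h)
    have e0 : v 0 = 0 := hle hv
    have k : mk3 0 1 0 ∈ J := by
      rcases zmod2 (v 2) with e2 | e2
      · rcases zmod2 (v 1) with e1 | e1
        · exfalso; apply hv0'; rw [eq_mk3 v, e0, e1, e2, mk3_zero]
        · rw [eq_mk3 v, e0, e1, e2] at hv; exact hv
      · have := (hJ.2 v hv (mk3 1 0 0) trivial).1
        rw [eq_mk3 v, mk3_mul, e2] at this
        simpa using this
    refine le_antisymm hle ?_
    intro w hw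
    have := (hJ.2 _ k w trivial).1
    rw [eq_mk3 w, mk3_mul] at this
    rw [eq_mk3 w, show w 0 = 0 from hw]
    simpa using this
  · rintro ⟨-, h⟩
    have hJ : IsIdealOf J0 I0 := by
      refine ⟨fun a ha => ha.1, fun a ha b hb => ?_⟩
      have hb0 : b 0 = 0 := hb
      refine ⟨⟨rfl, ?_⟩, ⟨rfl, ?_⟩⟩
      · show a 1 * b 1 + a 2 * b 0 = 0
        rw [ha.2, hb0]; simp
      · show b 1 * a 1 + b 2 * a 0 = 0
        rw [ha.2, ha.1]; simp
    rcases h J0 hJ with h | h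
    · have : mk3 0 0 1 ∈ J0 := ⟨rfl, rfl⟩
      rw [h] at this
      have : (1 : ZMod 2) = 0 := congrFun this 2
      exact one_ne_zero this
    · have : mk3 0 1 0 ∈ I0 := rfl
      rw [← h] at this
      exact one_ne_zero (α := ZMod 2) this.2
  · have : ∀ k, mk3 0 1 0 ∈ derived I0 k := by
      intro k
      induction k with
      | zero => rfl
      | succ k ih => exact AddSubgroup.subset_closure ⟨_, ih, _, ih, one_sq⟩
    intro k h
    have h1 := this k
    rw [h] at h1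
    exact one_ne h1
  · have : ∀ k, mk3 0 1 0 ∈ rightPow I0 k := by
      intro k
      induction k with
      | zero => rfl
      | succ k ih => exact AddSubgroup.subset_closure ⟨_, ih, _, (rfl : mk3 0 1 0 ∈ I0), one_sq⟩
    intro k h
    have h1 := this k
    rw [h] at h1
    exact one_ne h1

end Pool.Agent.Results.MP_c4a975_al.CharTwo
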